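import Pool.Agent.H174.GM.Stmts2

/-!
# Project GM (helper174), job EPM (helper190)
-/

set_option autoImplicit false

namespace Pool.Agent.H190.GM174.EPM

open Finset Pool.Agent.H174.GM

section pairs

variable {R : Type*} [CommRing R] {n : ℕ}

theorem prod_pairs (f : Fin n × Fin n → R) :
    ∏ p ∈ pairs n, f p = ∏ i, ∏ j, if i < j then f (i, j) else 1 := by
  rw [pairs, prod_filter, Fintype.prod_prod_type]

/-- the pairs which contain `q` and those which do not -/
theorem prod_pairs_sa (q : Fin (n + 1)) (f : Fin (n + 1) × Fin (n + 1) → R) :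
    ∏ p ∈ pairs (n + 1), f p =
      (∏ r : Fin n, if q.succAbove r < q then f (q.succAbove r, q) else f (q, q.succAbove r)) *
        ∏ p ∈ pairs n, f (q.succAbove p.1, q.succAbove p.2) := by
  rw [prod_pairs, prod_pairs, Fin.prod_univ_succAbove _ q, Fin.prod_univ_succAbove _ q,
    if_neg (lt_irrefl q), one_mul]
  have h1 : ∀ r : Fin n, (∏ j, if q.succAbove r < j then f (q.succAbove r, j) else 1) =
      (if q.succAbove r < q then f (q.succAbove r, q) else 1) *
        ∏ s : Fin n, if r < s then f (q.succAbove r, q.succAbove s) else 1 := by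
    intro r
    rw [Fin.prod_univ_succAbove _ q]
    simp only [Fin.succAbove_lt_succAbove_iff]
  rw [prod_congr rfl fun r _ => h1 r, prod_mul_distrib, ← mul_assoc, ← prod_mul_distrib]
  congr 1
  refine prod_congr rfl fun r _ => ?_
  by_cases h : q.succAbove r < q
  · rw [if_pos h, if_pos h, if_neg h.not_gt, one_mul]
  · have h2 : q < q.succAbove r := lt_of_le_of_ne (not_lt.1 h) (Fin.succAbove_ne q r).symm
    rw [if_neg h, if_neg h, if_pos h2, mul_one]

/-- the sign of the position `q` -/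
theorem sign_pos (q : Fin (n + 1)) :
    (∏ r : Fin n, if q.succAbove r < q then (-1 : R) else 1) = (-1) ^ q.1 := by
  have h1 : ∀ r : Fin n, (if q.succAbove r < q then (-1 : R) else 1) =
      (fun i : ℕ => if i < q.1 then (-1 : R) else 1) r.1 := by
    intro r
    have h2 : (q.succAbove r < q) ↔ r.1 < q.1 := by
      rw [Fin.succAbove_lt_iff_castSucc_lt, Fin.lt_def, Fin.val_castSucc]
    simp only [h2]
  rw [prod_congr rfl fun r _ => h1 r, Fin.prod_univ_eq_prod_range
    (fun i : ℕ => if i < q.1 then (-1 : R) else 1) n, ← prod_filter, prod_const]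
  congr 1
  have h2 : (range n).filter (fun i => i < q.1) = range q.1 := by
    ext i
    have := q.2
    simp only [mem_filter, mem_range]
    omega
  rw [h2, card_range]

end pairs

section alg

variable {R : Type*} [CommRing R] {n : ℕ}

/-- the numerator of a term -/
def FF (T : R) (Y : Fin n → R) : R :=
  T * ∏ i, ((Y i - T) * (1 - (1 - T) * Y i) * (1 - T * (1 - Y i)) * (1 - (1 - T) * (1 - Y i)))

theorem FF_map {S : Type*} [CommRing S] (φ : R →+* S) (T : R) (Y : Fin n → R) :
    φ (FF T Y) = FF (φ T) (φ ∘ Y) := by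
  simp [FF, map_prod]

theorem d2_eq (T y : R) : d2 (uu T) (uu y) =
    (1 - T * y) * ((1 - (1 - T) * y) * (1 - T * (1 - y)) * (1 - (1 - T) * (1 - y))) := by
  unfold d2 uu
  ring

theorem uu_flp (ε : Fin n → Bool) (X : Fin n → R) (i : Fin n) : uu (flp ε X i) = uu (X i) := by
  unfold flp uu
  split_ifs <;> ring

theorem uu_bar (T : R) : uu (1 - T) = uu T := by
  unfold uu
  ring

end alg

section fld

variable {K : Type} [Field K] {n : ℕ}

/-- splitting off a variable -/
theorem gg_sa (q : Fin (n + 1)) (Y : Fin (n + 1) → K) : gg Y = (1 - Y q)⁻¹ *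
    ((-1) ^ q.1 * ∏ r, (Y (q.succAbove r) - Y q) * (1 - Y q * Y (q.succAbove r))⁻¹) *
      gg (Y ∘ q.succAbove) := by
  unfold gg
  rw [Fin.prod_univ_succAbove _ q, prod_pairs_sa q]
  have h1 : (∏ r : Fin n, if q.succAbove r < q then
        (Y q - Y (q.succAbove r)) * (1 - Y (q.succAbove r) * Y q)⁻¹
      else (Y (q.succAbove r) - Y q) * (1 - Y q * Y (q.succAbove r))⁻¹) =
      (-1) ^ q.1 * ∏ r, (Y (q.succAbove r) - Y q) * (1 - Y q * Y (q.succAbove r))⁻¹ := by
    rw [← sign_pos (R := K) q, ← prod_mul_distrib]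
    refine prod_congr rfl fun r _ => ?_
    by_cases h : q.succAbove r < q
    · rw [if_pos h, if_pos h, mul_comm (Y (q.succAbove r)) (Y q)]
      ring
    · rw [if_neg h, if_neg h, one_mul]
  simp only [] at h1 ⊢
  rw [h1]
  simp only [Function.comp_apply]
  ring

theorem gg_cons (T : K) (Y : Fin n → K) : gg (Fin.cons (α := fun _ => K) T Y) =
    (1 - T)⁻¹ * (∏ r, (Y r - T) * (1 - T * Y r)⁻¹) * gg Y := by
  rw [gg_sa 0]
  have h1 : (Fin.cons (α := fun _ => K) T Y : Fin (n + 1) → K) ∘ (0 : Fin (n + 1)).succAbove = Y := by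
    funext i
    simp [Fin.succAbove_zero]
  rw [h1]
  simp

/-- one term -/
theorem term (T : K) (Y : Fin n → K) (h1 : 1 - T ≠ 0) (h2 : ∀ i, 1 - T * Y i ≠ 0) :
    uu T * (∏ i, d2 (uu T) (uu (Y i))) * gg (Fin.cons (α := fun _ => K) T Y) = FF T Y * gg Y := by
  rw [gg_cons]
  have h3 : (∏ i, d2 (uu T) (uu (Y i))) * (∏ r, (Y r - T) * (1 - T * Y r)⁻¹) =
      ∏ i, ((Y i - T) * (1 - (1 - T) * Y i) * (1 - T * (1 - Y i)) * (1 - (1 - T) * (1 - Y i))) := by
    rw [← prod_mul_distrib]
    refine prod_congr rfl fun i _ => ?_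
    rw [d2_eq]
    have := h2 i
    field_simp
  have h4 : uu T * (1 - T)⁻¹ = T := by
    unfold uu
    field_simp
  calc uu T * (∏ i, d2 (uu T) (uu (Y i))) * ((1 - T)⁻¹ * (∏ r, (Y r - T) * (1 - T * Y r)⁻¹) * gg Y)
      = (uu T * (1 - T)⁻¹) * ((∏ i, d2 (uu T) (uu (Y i))) *
          (∏ r, (Y r - T) * (1 - T * Y r)⁻¹)) * gg Y := by ring
    _ = FF T Y * gg Y := by rw [h3, h4]; rfl

theorem ee_cons (T : K) (X : Fin n → K) : ee (Fin.cons (α := fun _ => K) T X) =
    ∑ ε : Fin n → Bool, sg ε • (gg (Fin.cons (α := fun _ => K) T (flp ε X)) -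
      gg (Fin.cons (α := fun _ => K) (1 - T) (flp ε X))) := by
  unfold ee
  rw [← (Fin.consEquiv (fun _ : Fin (n + 1) => Bool)).sum_comp, Fintype.sum_prod_type,
    Fintype.sum_bool, ← sum_add_distrib]
  refine sum_congr rfl fun ε _ => ?_
  have hs : ∀ b : Bool, sg (Fin.consEquiv (fun _ : Fin (n + 1) => Bool) (b, ε)) =
      (if b then (-1 : ℤ) else 1) * sg ε := by
    intro b
    unfold sg
    rw [Fin.prod_univ_succ]
    simp [Fin.consEquiv]
  have hf : ∀ b : Bool, flp (Fin.consEquiv (fun _ : Fin (n + 1) => Bool) (b, ε))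
      (Fin.cons (α := fun _ => K) T X) =
      Fin.cons (α := fun _ => K) (if b then 1 - T else T) (flp ε X) := by
    intro b
    funext i
    refine Fin.cases ?_ (fun j => ?_) i
    · simp [flp, Fin.consEquiv]
    · simp [flp, Fin.consEquiv]
  rw [hs, hs, hf, hf]
  simp only [if_true, Bool.false_eq_true, if_false, neg_mul, one_mul, neg_smul, smul_sub]
  ring

/-- the value of a term at `T = 1 / Y_q` -/
theorem FF_val (q : Fin (n + 1)) (Y : Fin (n + 1) → K) (T y : K) (hy : Y q = y) (hT : T * y = 1)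
    (hy1 : 1 - y ≠ 0) (hY : ∀ r, 1 - y * Y (q.succAbove r) ≠ 0) :
    FF T Y * gg Y = (-1) ^ q.1 * (-((2 - y) * (2 * y - 1) * (1 - y + y ^ 2) * (1 + y) * T ^ 4)) *
      (∏ r, d2 (uu T) (uu (Y (q.succAbove r)))) * gg (Y ∘ q.succAbove) := by
  rw [gg_sa q Y, FF, Fin.prod_univ_succAbove _ q, hy]
  have h3 : (∏ r, ((Y (q.succAbove r) - T) * (1 - (1 - T) * Y (q.succAbove r)) *
        (1 - T * (1 - Y (q.succAbove r))) * (1 - (1 - T) * (1 - Y (q.succAbove r))))) *
      (∏ r, (Y (q.succAbove r) - y) * (1 - y * Y (q.succAbove r))⁻¹) =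
      ∏ r, d2 (uu T) (uu (Y (q.succAbove r))) := by
    rw [← prod_mul_distrib]
    refine prod_congr rfl fun r _ => ?_
    rw [d2_eq]
    have h5 := hY r
    set z := Y (q.succAbove r) with hz
    have h6 : (z - T) * ((z - y) * (1 - y * z)⁻¹) = 1 - T * z := by
      rw [← mul_assoc]
      have h7 : (z - T) * (z - y) = (1 - T * z) * (1 - y * z) := by
        linear_combination (1 - z ^ 2) * hT
      rw [h7, mul_assoc, mul_inv_cancel₀ h5, mul_one]
    linear_combination ((1 - (1 - T) * z) * (1 - T * (1 - z)) * (1 - (1 - T) * (1 - z))) * h6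
  have h4 : T * ((y - T) * (1 - (1 - T) * y) * (1 - T * (1 - y)) * (1 - (1 - T) * (1 - y))) *
      (1 - y)⁻¹ = -((2 - y) * (2 * y - 1) * (1 - y + y ^ 2) * (1 + y) * T ^ 4) := by
    have hy0 : y ≠ 0 := by
      rintro rfl
      simp at hT
    have hTy : T = y⁻¹ := eq_inv_of_mul_eq_one_left hT
    rw [hTy]
    field_simp
    ring
  rw [← h3, ← h4]
  ring

/-- the terms which vanish at `T = 1 / x` -/
theorem FF_zero (q : Fin n) (Y : Fin n → K) (T : K)
    (h : (1 - (1 - T) * Y q) * (1 - T * (1 - Y q)) * (1 - (1 - T) * (1 - Y q)) = 0) :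
    FF T Y = 0 := by
  unfold FF
  rw [prod_eq_zero (mem_univ q), mul_zero]
  linear_combination (Y q - T) * h

end fld

section main

open Polynomial in
/-- the polynomial -/
noncomputable def MM {K : Type} [Field K] {n : ℕ} (X' : Fin n → K) : K[X] :=
  ∑ ε : Fin n → Bool, sg ε • ((FF X (fun i => C (flp ε X' i)) -
    FF (1 - X) (fun i => C (flp ε X' i))) * C (gg (flp ε X')))

theorem MM_eval {K : Type} [Field K] {n : ℕ} (X : Fin n → K) (T : K) :
    (MM X).eval T = ∑ ε : Fin n → Bool, sg ε • ((FF T (flp ε X) - FF (1 - T) (flp ε X)) *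
      gg (flp ε X)) := by
  rw [← Polynomial.coe_evalRingHom, MM, map_sum]
  refine sum_congr rfl fun ε _ => ?_
  rw [map_zsmul, map_mul, map_sub, FF_map, FF_map]
  simp [Function.comp_def]

open Polynomial in
theorem FF_deg {K : Type} [Field K] {n : ℕ} (P : K[X]) (hP : P.natDegree ≤ 1) (Y : Fin n → K) :
    (FF P (fun i => C (Y i))).natDegree ≤ 4 * n + 1 := by
  have h1 : ∀ i, ((C (Y i) - P) * (1 - (1 - P) * C (Y i)) * (1 - P * (1 - C (Y i))) *
      (1 - (1 - P) * (1 - C (Y i)))).natDegree ≤ 4 := by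
    intro i
    have a1 : (C (Y i) - P).natDegree ≤ 1 := (natDegree_sub_le _ _).trans (by simp [hP])
    have a0 : (1 - P).natDegree ≤ 1 := (natDegree_sub_le _ _).trans (by simp [hP])
    have b0 : (1 - C (Y i)).natDegree ≤ 0 := (natDegree_sub_le _ _).trans (by simp)
    have c0 : (C (Y i)).natDegree ≤ 0 := by simp
    have a2 : (1 - (1 - P) * C (Y i)).natDegree ≤ 1 := by
      refine (natDegree_sub_le _ _).trans (max_le (by simp) ?_)
      exact natDegree_mul_le.trans (by omega)
    have a3 : (1 - P * (1 - C (Y i))).natDegree ≤ 1 := by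
      refine (natDegree_sub_le _ _).trans (max_le (by simp) ?_)
      exact natDegree_mul_le.trans (by omega)
    have a4 : (1 - (1 - P) * (1 - C (Y i))).natDegree ≤ 1 := by
      refine (natDegree_sub_le _ _).trans (max_le (by simp) ?_)
      exact natDegree_mul_le.trans (by omega)
    have d1 := natDegree_mul_le (p := C (Y i) - P) (q := 1 - (1 - P) * C (Y i))
    have d2 := natDegree_mul_le (p := (C (Y i) - P) * (1 - (1 - P) * C (Y i)))
      (q := 1 - P * (1 - C (Y i)))
    refine natDegree_mul_le.trans ?_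
    omega
  unfold FF
  refine natDegree_mul_le.trans ?_
  simp only []
  have h2 : (∏ i, ((C (Y i) - P) * (1 - (1 - P) * C (Y i)) * (1 - P * (1 - C (Y i))) *
      (1 - (1 - P) * (1 - C (Y i))))).natDegree ≤ ∑ i : Fin n, 4 :=
    (natDegree_prod_le _ _).trans (sum_le_sum fun i _ => h1 i)
  rw [sum_const, card_univ, Fintype.card_fin, smul_eq_mul] at h2
  omega

open Polynomial in
theorem MM_deg {K : Type} [Field K] {n : ℕ} (X' : Fin n → K) : (MM X').natDegree ≤ 4 * n + 1 := by
  unfold MM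
  refine natDegree_sum_le_of_forall_le _ _ fun ε _ => ?_
  refine (natDegree_smul_le _ _).trans (natDegree_mul_le.trans ?_)
  have h1 := FF_deg (X : K[X]) (by simp) (flp ε X')
  have h2 := FF_deg (1 - X : K[X]) ((natDegree_sub_le _ _).trans (by simp)) (flp ε X')
  have h3 := natDegree_sub_le (FF (X : K[X]) (fun i => C (flp ε X' i)))
    (FF (1 - X) (fun i => C (flp ε X' i)))
  have h4 : (C (gg (flp ε X'))).natDegree = 0 := natDegree_C _
  have h5 := max_le h1 h2
  omega

theorem ai_ne {K : Type} [Field K] [Algebra ℚ K] {n : ℕ} {X : Fin n → K}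
    (h : AlgebraicIndependent ℚ X) (p : MvPolynomial (Fin n) ℚ) (t : Fin n → ℚ)
    (ht : MvPolynomial.eval t p ≠ 0) : MvPolynomial.aeval X p ≠ 0 := by
  intro h0
  have h1 := (algebraicIndependent_iff.1 h) p h0
  rw [h1, map_zero] at ht
  exact ht rfl

theorem epm : S_EPM := by
  intro k K _ _ X hX
  have hx0 : ∀ q, X q ≠ 0 := fun q => by
    have := ai_ne hX (MvPolynomial.X q) (fun _ => 1) (by simp)
    simpa using this
  have hx1 : ∀ q, 1 - X q ≠ 0 := fun q => by
    have := ai_ne hX (1 - MvPolynomial.X q) (fun _ => 0) (by simp)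
    simpa using this
  have hx2 : ∀ q r, 1 - X q * X r ≠ 0 := fun q r => by
    have := ai_ne hX (1 - MvPolynomial.X q * MvPolynomial.X r) (fun _ => 0) (by simp)
    simpa using this
  have hx3 : ∀ q r, 1 - X q * (1 - X r) ≠ 0 := fun q r => by
    have := ai_ne hX (1 - MvPolynomial.X q * (1 - MvPolynomial.X r)) (fun _ => 0) (by simp)
    simpa using this
  refine ⟨MM X, ?_, ?_, ?_⟩
  · have := MM_deg X
    omega
  · intro T hT0 hT1 hd
    rw [MM_eval, ee_cons, mul_sum]
    refine sum_congr rfl fun ε _ => ?_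
    have e : ∏ i, d2 (uu T) (uu (X i)) = ∏ i, d2 (uu T) (uu (flp ε X i)) := by
      simp only [uu_flp]
    have ha : ∀ i, 1 - T * flp ε X i ≠ 0 := fun i h =>
      hd i (by rw [← uu_flp ε X i, d2_eq, h, zero_mul])
    have hb : ∀ i, 1 - (1 - T) * flp ε X i ≠ 0 := fun i h =>
      hd i (by rw [← uu_flp ε X i, d2_eq, h]; ring)
    have t1 := term T (flp ε X) (sub_ne_zero.2 hT1.symm) ha
    have t2 := term (1 - T) (flp ε X) (by rw [sub_sub_cancel]; exact hT0) hb
    rw [uu_bar] at t2
    rw [mul_smul_comm, mul_sub, sub_mul, e, t1, t2]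
  · intro q
    have hT : (X q)⁻¹ * X q = 1 := inv_mul_cancel₀ (hx0 q)
    rw [MM_eval, ← (Fin.insertNthEquiv (fun _ : Fin (k + 1) => Bool) q).sum_comp,
      Fintype.sum_prod_type, Fintype.sum_bool]
    have hfq : ∀ (b : Bool) (ε : Fin k → Bool),
        flp (Fin.insertNthEquiv (fun _ : Fin (k + 1) => Bool) q (b, ε)) X q =
          if b then 1 - X q else X q := by
      intro b ε
      simp [flp, Fin.insertNthEquiv]
    have hfr : ∀ (b : Bool) (ε : Fin k → Bool) (r : Fin k),
        flp (Fin.insertNthEquiv (fun _ : Fin (k + 1) => Bool) q (b, ε)) X (q.succAbove r) =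
          flp ε (X ∘ q.succAbove) r := by
      intro b ε r
      simp [flp, Fin.insertNthEquiv]
    have hs : ∀ ε : Fin k → Bool,
        sg (Fin.insertNthEquiv (fun _ : Fin (k + 1) => Bool) q (false, ε)) = sg ε := by
      intro ε
      unfold sg
      rw [Fin.prod_univ_succAbove _ q]
      simp [Fin.insertNthEquiv]
    have hz : ∀ ε : Fin k → Bool, sg (Fin.insertNthEquiv (fun _ : Fin (k + 1) => Bool) q (true, ε)) •
        ((FF (X q)⁻¹ (flp (Fin.insertNthEquiv (fun _ : Fin (k + 1) => Bool) q (true, ε)) X) -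
          FF (1 - (X q)⁻¹) (flp (Fin.insertNthEquiv (fun _ : Fin (k + 1) => Bool) q (true, ε)) X)) *
            gg (flp (Fin.insertNthEquiv (fun _ : Fin (k + 1) => Bool) q (true, ε)) X)) = 0 := by
      intro ε
      rw [FF_zero q, FF_zero q, sub_self, zero_mul, smul_zero]
      · rw [hfq, if_pos rfl]
        linear_combination (-(1 - (1 - (1 - (X q)⁻¹)) * (1 - X q)) *
          (1 - (1 - (X q)⁻¹) * (1 - (1 - X q)))) * hT
      · rw [hfq, if_pos rfl]
        linear_combination (-(1 - (1 - (X q)⁻¹) * (1 - X q)) *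
          (1 - (1 - (X q)⁻¹) * (1 - (1 - X q)))) * hT
    rw [sum_congr rfl fun ε _ => hz ε, sum_const_zero, zero_add, ee, mul_sum]
    refine sum_congr rfl fun ε _ => ?_
    rw [hs, mul_smul_comm]
    congr 1
    have hzero : FF (1 - (X q)⁻¹)
        (flp (Fin.insertNthEquiv (fun _ : Fin (k + 1) => Bool) q (false, ε)) X) = 0 := by
      apply FF_zero q
      rw [hfq, if_neg Bool.false_ne_true]
      linear_combination (-(1 - (1 - (X q)⁻¹) * (1 - X q)) *
          (1 - (1 - (1 - (X q)⁻¹)) * (1 - X q))) * hT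
    rw [hzero, sub_zero, FF_val q _ (X q)⁻¹ (X q) (by rw [hfq, if_neg Bool.false_ne_true]) hT (hx1 q)]
    · have h1 : flp (Fin.insertNthEquiv (fun _ : Fin (k + 1) => Bool) q (false, ε)) X ∘ q.succAbove =
          flp ε (X ∘ q.succAbove) := funext fun r => hfr false ε r
      rw [h1]
      have h2 : ∀ r, d2 (uu (X q)⁻¹) (uu (flp (Fin.insertNthEquiv (fun _ : Fin (k + 1) => Bool) q
          (false, ε)) X (q.succAbove r))) = d2 (uu (X q)⁻¹) (uu (X (q.succAbove r))) := fun r => by
        rw [uu_flp]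
      rw [prod_congr rfl fun r _ => h2 r]
    · intro r
      rw [hfr]
      unfold flp
      split_ifs
      · exact hx3 q _
      · exact hx2 q _

end main

end Pool.Agent.H190.GM174.EPM
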